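import Pool.Agent.Lib.MP_d61770_an.NonCyc2
import Pool.Agent.Lib.MP_d61770_an.Symm

/-!
# Weak invertibility in `E^q(μ)` does not imply weak invertibility in `E^p(μ)`, `q < p`

The measure `mu0 = exp(-(1-|z|)⁻²) dA` on the unit disc is symmetric.  For every `p > 0` the
function `exp(-(8/p) (1-z)⁻²)` lies in `E^p(mu0)`, is weakly invertible in `E^q(mu0)` for every
`0 < q < p`, but is not weakly invertible in `E^p(mu0)`.
-/

set_option autoImplicit false

namespace Pool.Agent.Results.MP_d61770_an.SharpCounterexample

open Pool.Agent.Lib.MP_d61770_an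

/-- The negative answer to Q1 in a sharp form, for one symmetric measure and all exponents. -/
theorem result :
    IsSymm mu0 ∧ ∀ p : ℝ, 0 < p →
      MemE mu0 p (ff (8 / p)) ∧
      (∀ q : ℝ, 0 < q → q < p → WeaklyInvertible mu0 q (ff (8 / p))) ∧
      ¬ WeaklyInvertible mu0 p (ff (8 / p)) := by
  refine ⟨isSymm_mu0, fun p hp => ⟨?_, fun q hq hqp => ?_, not_wi hp⟩⟩
  · apply memE_ff (by positivity) hp
    apply le_of_eq
    field_simp
  · apply wi_of_app hq
    apply app_one (by positivity) hq
    rw [div_div, mul_comm p 8, ← div_div, div_self (by norm_num), one_div_mul_eq_div,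
      div_lt_one hp]
    exact hqp

end Pool.Agent.Results.MP_d61770_an.SharpCounterexample
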